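import Pool.Agent.Run7.h609.CW.Fin

/-!
# Correlations of all orders of the zeros of zeta, in every weight `|R|²`

Unconditionally, for every `k` and `ε > 0` there are `δ, L₀ > 0` such that for all large `T`, all
intervals `(T, T + K]` with `T ^ (1 - δ) ≤ K ≤ T / 8`, every Dirichlet polynomial
`R(t) = ∑ r(n) n ^ (- i t)` over integers `n ≤ T ^ δ` with arbitrary complex coefficients, and all
intervals `(A₁, B₁], …, (A_k, B_k]` with `- T / 4 ≤ A_j`, `B_j ≤ T ^ (1 + δ)` of length at least
`L₀ / log T`: the sum over the zeros `x` with ordinate in `(T, T + K]` of `|R(Im x)|²` times the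
product over `j` of the number of the zeros `y` with `A_j < Im y - Im x ≤ B_j` is at least
`(1 - ε) ∏ ((B_j - A_j) log T / 2π)` times `(K / 2π) log T ∑ |r(n)|²`.

The same with zeros of two kinds: for each of the `k + 1` variables we may count either all zeros
with their multiplicity, or only the isolated simple zeros, those which are simple, lie on the
critical line and have distance at least `d / log (Im s)` from all other zeros of zeta in the
critical strip, on or off the line, where `d = d(k, ε) > 0`; with `m` variables of this second kind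
the constant `1 - ε` becomes `1 - 0.3275 m - ε`. So pairs of isolated simple zeros at distance in
`(A, B]` have a share of at least `34.5 %`, triples at least `1.75 %`, of what is expected, whatever
the weight; the distances can be as large as `T ^ (1 + δ)` and the windows as short as `L₀` times
the mean spacing.

The proof: the number of zeros in a window of length `2 H₂ / log T`, truncated at `1 + 4 ε` times
its mean value, has, in the weight `|R|²`, nearly the mean value (isolated simple zeros: `67.25 %` of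
it), since large numbers are rare in every weight; a shift of the argument only changes the
coefficients of `R`. The truncated numbers lie in `[0, 1]` after normalisation, so that their product
is at least `1` minus the sum of the deficits (`Pool.Agent.Run7.h609.CW`).
-/

open Filter Topology Complex

namespace Pool.Agent.Results.MP_8958e8_nt.CorrelationsEveryWeight

/-- the zeros of zeta in the open critical strip with ordinates in `(T₁, T₂]` -/
def zeros (T₁ T₂ : ℝ) : Set ℂ :=
  {s : ℂ | riemannZeta s = 0 ∧ 0 < s.re ∧ s.re < 1 ∧ T₁ < s.im ∧ s.im ≤ T₂}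

/-- the multiplicity of a zero of zeta -/
noncomputable def mult (s : ℂ) : ℕ := analyticOrderNatAt riemannZeta s

/-- the zero `s` is simple, lies on the critical line and has distance at least `d / log (Im s)`
from all other zeros of zeta in the open critical strip -/
def Isolated (d : ℝ) (s : ℂ) : Prop :=
  s.re = 1 / 2 ∧ mult s = 1 ∧
    ∀ s' : ℂ, riemannZeta s' = 0 → 0 < s'.re → s'.re < 1 → s' ≠ s → d / Real.log s.im ≤ ‖s' - s‖

open Classical in
/-- how a zero is counted: for the kind `false` with its multiplicity, for the kind `true` with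
weight `1` if it is isolated and `0` if not -/
noncomputable def weight (d : ℝ) (κ : Bool) (s : ℂ) : ℝ :=
  if κ then (if Isolated d s then 1 else 0) else (mult s : ℝ)

/-- the number of the zeros of the kind `κ` with ordinates in `(a, b]` -/
noncomputable def number (d : ℝ) (κ : Bool) (a b : ℝ) : ℝ := ∑ᶠ s ∈ zeros a b, weight d κ s

/-- the share of the zeros of a kind: `1` for all zeros, `0.6725` for the isolated simple zeros -/
noncomputable def share (κ : Bool) : ℝ := if κ then 0.6725 else 1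

/-- the Dirichlet polynomial `∑ r(n) n ^ (- i t)`, `n` in `S` -/
noncomputable def R (S : Finset ℕ) (r : ℕ → ℂ) (t : ℝ) : ℂ :=
  ∑ n ∈ S, r n * (n : ℂ) ^ (-(I * t))

/-- the main term `(K / 2π) log T ∑ |r(n)|²` -/
noncomputable def main (T K : ℝ) (S : Finset ℕ) (r : ℕ → ℂ) : ℝ :=
  K / (2 * Real.pi) * Real.log T * ∑ n ∈ S, ‖r n‖ ^ 2

lemma zeros_eq {T₁ T₂ : ℝ} (h : 1 ≤ T₁) :
    zeros T₁ T₂ = (H370.Zf riemannZeta T₁ T₂ : Set ℂ) := by
  ext s
  rw [Finset.mem_coe, H370.mem_Zf H370.good_zeta h]
  unfold zeros H370.zset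
  simp only [Set.mem_ofPred_eq]
  tauto

/-- the sets of zeros are finite -/
theorem zeros_finite (T₁ T₂ : ℝ) (h : 1 ≤ T₁) : (zeros T₁ T₂).Finite := by
  rw [zeros_eq h]
  exact Finset.finite_toSet _

lemma R_eq {S : Finset ℕ} {N : ℝ} (hS : ∀ n ∈ S, 1 ≤ n ∧ (n : ℝ) ≤ N) (r : ℕ → ℂ) (t : ℝ) :
    R S r t = N802.RP S r t := by
  unfold R N802.RP N802.TP
  refine Finset.sum_congr rfl fun n hn => ?_
  have hn0 : (n : ℂ) ≠ 0 := by
    have := (hS n hn).1
    exact_mod_cast (by omega : n ≠ 0)
  congr 1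
  unfold N802.mn
  rw [Complex.cpow_def_of_ne_zero hn0, ← Complex.natCast_log]
  congr 1
  rw [Nat.cast_one, Real.log_one]
  push_cast
  ring

lemma weight_eq (d : ℝ) (κ : Bool) (s : ℂ) : weight d κ s = Run7.h609.CW.kw d κ s := by
  classical
  have h : mult s = H370.mult riemannZeta s := rfl
  unfold weight Run7.h609.CW.kw Run7.h311.WI.cI Isolated
  rw [h]
  split_ifs <;> rfl

lemma weight_nonneg (d : ℝ) (κ : Bool) (s : ℂ) : 0 ≤ weight d κ s := by
  unfold weight
  split_ifs <;> first | exact Nat.cast_nonneg _ | norm_num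

lemma number_ge {d : ℝ} {κ : Bool} {a b V : ℝ} (ha : 1 ≤ a) :
    Run7.h609.CW.Nw (H370.Zf riemannZeta 1 V) (Run7.h609.CW.kw d κ) a b ≤ number d κ a b := by
  classical
  unfold number Run7.h609.CW.Nw
  rw [zeros_eq ha, finsum_mem_coe_finset]
  have e1 : ∑ y ∈ H370.Zf riemannZeta 1 V, Run7.h609.CW.kw d κ y * (if a < y.im ∧ y.im < b then (1 : ℝ) else 0) =
      ∑ y ∈ (H370.Zf riemannZeta 1 V).filter (fun y => a < y.im ∧ y.im < b), Run7.h609.CW.kw d κ y := by
    rw [Finset.sum_filter]
    refine Finset.sum_congr rfl fun y _ => ?_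
    split_ifs <;> simp
  rw [e1]
  simp_rw [← weight_eq]
  apply Finset.sum_le_sum_of_subset_of_nonneg
  · intro y hy
    rw [Finset.mem_filter, H370.mem_Zf H370.good_zeta (le_refl (1 : ℝ))] at hy
    exact (H370.mem_Zf H370.good_zeta ha).2 ⟨hy.1.1, hy.1.2.1, hy.2.1, hy.2.2.le, hy.1.2.2.2.2⟩
  · intro y _ _
    exact weight_nonneg d κ y

theorem result : ∀ (k : ℕ) (κ : Fin (k + 1) → Bool) (ε : ℝ), 0 < ε →
    ∃ d δ L₀ T₀ : ℝ, 0 < d ∧ 0 < δ ∧ 0 < L₀ ∧ ∀ T : ℝ, T₀ ≤ T →
    ∀ K : ℝ, T ^ (1 - δ) ≤ K → K ≤ T / 8 →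
    ∀ S : Finset ℕ, (∀ n ∈ S, 1 ≤ n ∧ (n : ℝ) ≤ T ^ δ) → ∀ r : ℕ → ℂ,
    ∀ A B : Fin k → ℝ, (∀ j, -(T / 4) ≤ A j) → (∀ j, B j ≤ T ^ (1 + δ)) →
    (∀ j, L₀ / Real.log T ≤ B j - A j) →
    (1 - ∑ j, (1 - share (κ j)) - ε) *
        ((∏ j, ((B j - A j) * Real.log T / (2 * Real.pi))) * main T K S r) ≤
      ∑ᶠ x ∈ zeros T (T + K), weight d (κ 0) x * ‖R S r x.im‖ ^ 2 *
        ∏ j : Fin k, number d (κ j.succ) (x.im + A j) (x.im + B j) := by
  intro k κ ε hε
  obtain ⟨d, δ, L₀, T₀, hd, hδ, hL₀, hT₀, h⟩ := Run7.h609.CW.final k κ ε hε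
  refine ⟨d, δ, L₀, T₀, hd, hδ, hL₀, fun T hT K hK1 hK2 S hS r A B hA hB hAB => ?_⟩
  have hT1 : 1 ≤ T := by linarith
  refine le_trans (h T hT K hK1 hK2 S hS r A B hA hB hAB (4 * T ^ (1 + δ)) le_rfl) ?_
  rw [zeros_eq hT1, finsum_mem_coe_finset]
  refine Finset.sum_le_sum fun x hx => ?_
  rw [R_eq hS, weight_eq]
  have hxz := (H370.mem_Zf H370.good_zeta hT1).1 hx
  have h0 : 0 ≤ Run7.h609.CW.kw d (κ 0) x := by
    rw [← weight_eq]
    exact weight_nonneg _ _ _
  apply mul_le_mul_of_nonneg_left _ (mul_nonneg h0 (sq_nonneg _))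
  apply Finset.prod_le_prod
  · intro j _
    apply Run7.h609.CW.Nw_nonneg
    intro s
    rw [← weight_eq]
    exact weight_nonneg _ _ _
  · intro j _
    apply number_ge
    have h1 := hA j
    have h2 : T < x.im := hxz.2.2.1
    linarith

end Pool.Agent.Results.MP_8958e8_nt.CorrelationsEveryWeight
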