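import Mathlib
import Pool.Agent.Run7.h422.PP.N4

/-!
# Pair correlation along the de Bruijn-Newman heat flow: the threshold `1 / log² T`

`H_t(z) = ∫_0^∞ e^{t u²} Φ(u) cos (z u) du` is the de Bruijn-Newman family: `H_0(z)` is the Riemann
function `ξ(1/2 + i z/2) / 8`, and the heights of the zeros of zeta are the numbers `Re z / 2`,
`H_0(z) = 0`. We compare the statistics of the pairs of zeros at heights up to `T` at a time
`t = t(T)` with those of the zeros of zeta. The critical size of `t(T)` is `1 / log² T`, the square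
of the mean distance of the zeros.

(1) If `t(T) log² T → 0`, then every continuous law holds for the zeros of zeta if and only if it
holds for the zeros of `H_{t(T)}`. In particular Montgomery's conjecture (the question of
`MP_8958e8_nt`) is equivalent to the same conjecture for `H_{t(T)}`.

Moreover, if such a law holds for zeta, then it holds for `H_t` up to `ε` at all times
`t ≤ δ / log² T`, with `δ > 0` depending only on `ε` and on the interval.

(2) If `t log² T ≥ τ₀` (and `t log T ≤ A`), with a large constant `τ₀` depending on `m`, `ε`, `η`, `A`, then there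
are at least `(1 - η) N` pairs of zeros of `H_t` with a normalised difference in `[m - ε, m + ε]`, where `N` is the
number of zeros. So no continuous law, in particular not Montgomery's, holds for `H_t` when `t = τ / log² T` with a large constant
`τ`, or at later times. The critical time is a constant multiple of `1 / log² T`.

(1) is proved with the comparison theorem `Pool.Agent.R838.ST.cmp`, (2) with the theorem on regular
zeros `Pool.Agent.R838.CR.fin_irr`; both are starting modules (see the docstring of the starting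
result `MP_cd509c_nt.HeatFlowSpacing` for their authors).
-/

set_option autoImplicit false

open Filter Topology

namespace Pool.Agent.Results.MP_8958e8_nt.HeatFlowThreshold

/-- The kernel `Φ(u) = ∑_{n ≥ 1} (2 π² n⁴ e^{9u} - 3 π n² e^{5u}) exp (-π n² e^{4u})`. -/
noncomputable def Phi (u : ℝ) : ℝ := ∑' n : ℕ,
  (2 * Real.pi ^ 2 * ((n : ℝ) + 1) ^ 4 * Real.exp (9 * u) -
    3 * Real.pi * ((n : ℝ) + 1) ^ 2 * Real.exp (5 * u)) *
    Real.exp (-(Real.pi * ((n : ℝ) + 1) ^ 2 * Real.exp (4 * u)))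

/-- The de Bruijn-Newman family `H_t(z) = ∫_0^∞ e^{t u²} Φ(u) cos (z u) du`. -/
noncomputable def H (t : ℝ) (z : ℂ) : ℂ :=
  ∫ u in Set.Ioi (0 : ℝ), ((Real.exp (t * u ^ 2) * Phi u : ℝ) : ℂ) * Complex.cos (z * u)

/-- The nontrivial zeros of zeta with multiplicity: `(ρ, i)`, `i` less than the multiplicity of `ρ`. -/
def ZetaZeros : Set (ℂ × ℕ) :=
  {p | 0 < p.1.re ∧ p.1.re < 1 ∧ p.2 < analyticOrderNatAt riemannZeta p.1}

/-- The zeros of `H_t` with multiplicity. -/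
def HZeros (t : ℝ) : Set (ℂ × ℕ) := {p | p.2 < analyticOrderNatAt (H t) p.1}

/-- The elements of `Z` with heights `h` in `(0, T]`. -/
def upTo (Z : Set (ℂ × ℕ)) (h : ℂ → ℝ) (T : ℝ) : Set (ℂ × ℕ) := {p | p ∈ Z ∧ 0 < h p.1 ∧ h p.1 ≤ T}

/-- The ordered pairs of elements of `Z` with heights in `(0, T]` and normalised difference
`(γ₁ - γ₂) log T / (2 π)` in `[α, β]`. -/
def pairs (Z : Set (ℂ × ℕ)) (h : ℂ → ℝ) (T α β : ℝ) : Set ((ℂ × ℕ) × (ℂ × ℕ)) :=
  {x | x.1 ∈ upTo Z h T ∧ x.2 ∈ upTo Z h T ∧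
    α ≤ (h x.1.1 - h x.2.1) * (Real.log T / (2 * Real.pi)) ∧
    (h x.1.1 - h x.2.1) * (Real.log T / (2 * Real.pi)) ≤ β}

/-- `N(T; α, β)` for the zeros of zeta; the height is the imaginary part. -/
noncomputable def pairsZeta (T α β : ℝ) : ℝ := ((pairs ZetaZeros (fun z => z.im) T α β).ncard : ℝ)

/-- `N(T; α, β)` for the zeros of `H_t`; the height is half of the real part. -/
noncomputable def pairsH (t T α β : ℝ) : ℝ := ((pairs (HZeros t) (fun z => z.re / 2) T α β).ncard : ℝ)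

/-- The number of zeros of `H_t` with heights in `(0, T]`. -/
noncomputable def numH (t T : ℝ) : ℝ := ((upTo (HZeros t) (fun z => z.re / 2) T).ncard : ℝ)

/-- The law `Ψ`: `N(T; α, β) / (T log T / (2 π)) → Ψ(α, β)` for all `0 < α < β`. -/
def Law (N : ℝ → ℝ → ℝ → ℝ) (Ψ : ℝ → ℝ → ℝ) : Prop :=
  ∀ α β : ℝ, 0 < α → α < β →
    Tendsto (fun T : ℝ => N T α β / (T * Real.log T / (2 * Real.pi))) atTop (𝓝 (Ψ α β))

/-- `Ψ` is continuous on `{(α, β) : 0 < α < β}`. -/
def Continuous2 (Ψ : ℝ → ℝ → ℝ) : Prop :=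
  ContinuousOn (fun x : ℝ × ℝ => Ψ x.1 x.2) {x | 0 < x.1 ∧ x.1 < x.2}

/-- Montgomery's law `∫_α^β (1 - (sin π u / (π u))²) du`. -/
noncomputable def montgomery (α β : ℝ) : ℝ :=
  ∫ u in α..β, (1 - (Real.sin (Real.pi * u) / (Real.pi * u)) ^ 2)

/-- **Main theorem.** (1) If `t(T) ≥ 0` and `t(T) log² T → 0`, a continuous
law holds for the zeros of zeta if and only if it holds for the zeros of `H_{t(T)}`; in particular
this is true for Montgomery's law. If it holds for zeta, then for all `0 < α < β`, `ε > 0` there are `δ > 0`, `T₀`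
such that it holds up to `ε` for the interval `[α, β]` and the zeros of `H_t`, if `T ≥ T₀` and `0 ≤ t log² T ≤ δ`.
(2) Let `A > 0`. There is `c > 0` such that `H_t` has at least `c T log T` zeros up to `T` for large
`T` and `0 ≤ t ≤ A / log T`. For all integers `m ≥ 1` and `ε, η > 0` there are `τ₀`, `T₀` such that for `T ≥ T₀`,
`τ₀ / log² T ≤ t ≤ A / log T` at least `(1 - η) N` pairs of zeros of `H_t` have a normalised difference
in `[m - ε, m + ε]`, `N` being the number of zeros up to `T`. For every continuous law, in particular for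
Montgomery's, there is `τ₀` such that it is false for the zeros of `H_{t(T)}` for every function `t(T)` with
`τ₀ / log² T ≤ t(T) ≤ A / log T` for large `T`. -/
theorem result :
    (∀ t : ℝ → ℝ, (∀ T, 0 ≤ t T) → Tendsto (fun T => t T * Real.log T ^ 2) atTop (𝓝 0) →
      (∀ Ψ : ℝ → ℝ → ℝ, Continuous2 Ψ → (Law pairsZeta Ψ ↔ Law (fun T => pairsH (t T) T) Ψ)) ∧
      (Law pairsZeta montgomery ↔ Law (fun T => pairsH (t T) T) montgomery)) ∧
    (∀ Ψ : ℝ → ℝ → ℝ, Continuous2 Ψ → Law pairsZeta Ψ → ∀ α β ε : ℝ, 0 < α → α < β → 0 < ε →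
      ∃ δ T₀ : ℝ, 0 < δ ∧ 2 ≤ T₀ ∧ ∀ T t : ℝ, T₀ ≤ T → 0 ≤ t → t * Real.log T ^ 2 ≤ δ →
        |pairsH t T α β / (T * Real.log T / (2 * Real.pi)) - Ψ α β| ≤ ε) ∧
    (∀ A : ℝ, 0 < A →
      (∃ c T₀ : ℝ, 0 < c ∧ 2 ≤ T₀ ∧ ∀ T t : ℝ, T₀ ≤ T → 0 ≤ t → t * Real.log T ≤ A →
        c * (T * Real.log T) ≤ numH t T) ∧
      (∀ m : ℕ, 1 ≤ m → ∀ ε η : ℝ, 0 < ε → 0 < η →
        ∃ τ₀ T₀ : ℝ, 0 < τ₀ ∧ 2 ≤ T₀ ∧ ∀ T t : ℝ, T₀ ≤ T → τ₀ ≤ t * Real.log T ^ 2 → t * Real.log T ≤ A →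
          (1 - η) * numH t T ≤ pairsH t T (m - ε) (m + ε)) ∧
      (∀ Ψ : ℝ → ℝ → ℝ, Continuous2 Ψ → ∃ τ₀ : ℝ, 0 < τ₀ ∧ ∀ t : ℝ → ℝ,
        (∀ᶠ T in atTop, τ₀ ≤ t T * Real.log T ^ 2 ∧ t T * Real.log T ≤ A) →
        ¬ Law (fun T => pairsH (t T) T) Ψ) ∧
      (∃ τ₀ : ℝ, 0 < τ₀ ∧ ∀ t : ℝ → ℝ,
        (∀ᶠ T in atTop, τ₀ ≤ t T * Real.log T ^ 2 ∧ t T * Real.log T ≤ A) →
        ¬ Law (fun T => pairsH (t T) T) montgomery)) := by
  have key : ∀ t : ℝ → ℝ, (∀ T, 0 ≤ t T) → Tendsto (fun T => t T * Real.log T ^ 2) atTop (𝓝 0) →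
      ∀ Ψ : ℝ → ℝ → ℝ, Continuous2 Ψ → (Law pairsZeta Ψ ↔ Law (fun T => pairsH (t T) T) Ψ) :=
    fun t ht h1 Ψ hΨ => Run7.h422.PP.law_small ht h1 hΨ
  refine ⟨fun t ht h1 => ⟨key t ht h1, key t ht h1 _ Run7.h422.PP.mo_cts⟩, ?_, fun A hA => ?_⟩
  · intro Ψ hΨ hlaw α β ε hα hαβ hε
    refine Run7.h422.PP.soft_small fun t ht h2 => ?_
    have h3 := (key t ht h2 Ψ hΨ).1 hlaw α β hα hαβ
    rw [Metric.tendsto_nhds] at h3
    filter_upwards [h3 ε hε] with T h4
    rw [Real.dist_eq] at h4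
    exact h4.le
  · refine ⟨Run7.h422.PP.nh_geU hA, fun m hm ε η hε hη => Run7.h422.PP.ph_geU hA hm hε hη,
      fun Ψ hΨ => Run7.h422.PP.no_cts_lawU hA hΨ, Run7.h422.PP.no_cts_lawU hA Run7.h422.PP.mo_cts⟩

end Pool.Agent.Results.MP_8958e8_nt.HeatFlowThreshold
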