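import Pool.Agent.Run7.h435.MFa

/-!
**The pair counts in all intervals, seen from almost every zero: the sharp deviation `(2 / π) log m` and the
multifractal law.**  Under RH.

For a zero with ordinate `γ n` and `α < β` let `P` be the number of the zeros `γ'` for which
`(γ' - γ n) log (γ n) / 2 π` lies in `(α, β]`, and `E n α β = P - (β - α)`.  (The pair correlation conjecture
is about the mean of `P` over the zeros, for fixed `α < β`.)  For almost every zero, at all scales `m` at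
once: `|E|` is at most `(2 / π + ε) log m` for ALL intervals `(α, β]` in `[0, m]`, and for `0 ≤ a < 1` the
number of the intervals `(i, j]` with integers `1 ≤ i < j ≤ m` and `E ≥ (2 a / π) log m`, and that with
`E ≤ - (2 a / π) log m`, is `m ^ (2 - 2 a ^ 2 + o(1))`; in particular the deviations `± (2 / π) log m` are
attained asymptotically.
-/

set_option autoImplicit false

open Filter

namespace Pool.Agent.Results.MP_8958e8_nt.PairCountsAllIntervals

/-- multiplicity of `s` as a zero of the Riemann zeta function (order of vanishing at `s`) -/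
noncomputable def zmult (s : ℂ) : ℕ := analyticOrderNatAt riemannZeta s

/-- the number of nontrivial zeros of `ζ` with ordinate in `(0, t]`, with multiplicity -/
noncomputable def NZ (t : ℝ) : ℕ :=
  ∑ᶠ s ∈ {s : ℂ | riemannZeta s = 0 ∧ 0 < s.re ∧ s.re < 1 ∧ 0 < s.im ∧ s.im ≤ t}, zmult s

/-- for `n ≥ 1`: the `n`-th positive ordinate `γ n` of a nontrivial zero of `ζ`, the ordinates being
listed in nondecreasing order and repeated according to multiplicity -/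
noncomputable def γ (n : ℕ) : ℝ := sInf {t : ℝ | n ≤ NZ t}

/-- the deviation of the pair count: the number of the zeros `γ'` (with multiplicity) for which
`(γ' - γ n) log (γ n) / 2 π` lies in `(α, β]`, minus `β - α` -/
noncomputable def E (n : ℕ) (α β : ℝ) : ℝ :=
  (NZ (γ n + 2 * Real.pi * β / Real.log (γ n)) : ℝ) - NZ (γ n + 2 * Real.pi * α / Real.log (γ n)) - (β - α)

/-- the pair counts of the zero `γ n` in the intervals contained in `[0, m]` have the deviations of the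
sine process, up to `ε` -/
structure Good (ε : ℝ) (m n : ℕ) : Prop where
  /-- in all intervals the deviation is at most `(2 / π + ε) log m` -/
  rigid : ∀ α β : ℝ, 0 ≤ α → α ≤ β → β ≤ m → |E n α β| ≤ (2 / Real.pi + ε) * Real.log m
  /-- for `0 ≤ a ≤ 1 - ε` at least `m ^ (2 - 2 a ^ 2 - ε)` intervals are crowded by `(2 a / π) log m` -/
  crowded : ∀ a : ℝ, 0 ≤ a → a ≤ 1 - ε → (m : ℝ) ^ (2 - 2 * a ^ 2 - ε) ≤
    ({p : ℕ × ℕ | 1 ≤ p.1 ∧ p.1 < p.2 ∧ p.2 ≤ m ∧ 2 * a / Real.pi * Real.log m ≤ E n p.1 p.2}.ncard : ℝ)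
  /-- for `0 ≤ a ≤ 1 - ε` at least `m ^ (2 - 2 a ^ 2 - ε)` intervals have a lack of `(2 a / π) log m` -/
  lacking : ∀ a : ℝ, 0 ≤ a → a ≤ 1 - ε → (m : ℝ) ^ (2 - 2 * a ^ 2 - ε) ≤
    ({p : ℕ × ℕ | 1 ≤ p.1 ∧ p.1 < p.2 ∧ p.2 ≤ m ∧ 2 * a / Real.pi * Real.log m ≤ -E n p.1 p.2}.ncard : ℝ)
  /-- for `0 ≤ a ≤ 1` at most `m ^ (2 - 2 a ^ 2 + ε)` intervals have `|E| ≥ (2 a / π) log m` -/
  few : ∀ a : ℝ, 0 ≤ a → a ≤ 1 →
    ({p : ℕ × ℕ | 1 ≤ p.1 ∧ p.1 < p.2 ∧ p.2 ≤ m ∧ 2 * a / Real.pi * Real.log m ≤ |E n p.1 p.2|}.ncard : ℝ) ≤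
      (m : ℝ) ^ (2 - 2 * a ^ 2 + ε)

/-- Assume RH.  For every `ε > 0` there is `m0` such that for all `M` and all large `N` the proportion of the
`n ≤ N` which are good at ALL scales `m0 ≤ m ≤ M` is at least `1 - ε`. -/
theorem result (hRH : RiemannHypothesis) : ∀ ε : ℝ, 0 < ε → ∃ m0 : ℕ, ∀ M : ℕ, ∀ᶠ N : ℕ in atTop,
    1 - ε ≤ (1 / N : ℝ) * ({n : ℕ | 1 ≤ n ∧ n ≤ N ∧ ∀ m : ℕ, m0 ≤ m → m ≤ M → Good ε m n}.ncard : ℝ) := by
  intro ε hε
  obtain ⟨m0, hm0⟩ := Run7.h435.MD.finalp (Run7.h435.MD.rhs_of hRH) hε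
  refine ⟨m0, fun M => ?_⟩
  filter_upwards [hm0 M] with N hN
  have e : {n : ℕ | 1 ≤ n ∧ n ≤ N ∧ ∀ m : ℕ, m0 ≤ m → m ≤ M → Good ε m n} =
      {n : ℕ | 1 ≤ n ∧ n ≤ N ∧ ∀ m : ℕ, m0 ≤ m → m ≤ M → Run7.h435.MD.PQ ε m n} := by
    ext n
    constructor
    · rintro ⟨h1, h2, h⟩
      exact ⟨h1, h2, fun m a b => ⟨(h m a b).rigid, (h m a b).crowded, (h m a b).lacking, (h m a b).few⟩⟩
    · rintro ⟨h1, h2, h⟩
      exact ⟨h1, h2, fun m a b => ⟨(h m a b).1, (h m a b).2.1, (h m a b).2.2.1, (h m a b).2.2.2⟩⟩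
  rw [e]
  exact hN

end Pool.Agent.Results.MP_8958e8_nt.PairCountsAllIntervals
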