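import Pool.Agent.Run7.h911.PG6

/-!
# Pairs of zeros in windows and small gaps at every size of zeta (under RH)

The zeros are sorted by the size of the zeta function around them. By Selberg's theorem
`√2 log |ζ(1/2 + it)| / √(log log t)` is asymptotically a standard Gaussian variable. An ordinate `γ`
has size in `(a, b)` when this normalised size lies in `(a, b)` on at least nine tenths of the window
`|t - γ| ≤ 1 / log γ` (at `γ` itself zeta vanishes).

Assume the Riemann hypothesis, let `a < b`, and let `G` be the standard Gaussian measure of `(a, b)`.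
For the pairs of ordinates in `(T, 2T]` which both have size in `(a, b)`:

(1) Montgomery's lower bound holds for the test functions that are nonnegative outside `(-1, 1)`, with
the factor `G` (the form factor of the class is asymptotically nonnegative);

(2) at least `(G V(β) - ε) N(T, 2T)` of these pairs are at distance `≤ β` times the mean spacing, for
every `β > 0`, with Montgomery's function `V`;

(3) for every window `[α, β]` of length more than `2`, their number `N(T; α, β)` in the window is between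
`G (β - α) / 3` and `G 25 (β - α + 1) / 4` times `N(T, 2T)`, up to `ε N(T, 2T)`;

(4) at least `κ G² N` of the `n ≤ N` have `δ_n < 0.6073` and both `γ_n` and `γ_{n+1}` of size in
`(a, b)`, with an absolute constant `κ > 0`.
-/

set_option autoImplicit false

open MeasureTheory

namespace Pool.Agent.Results.MP_8958e8_nt.PairsAndGapsAtEverySize

open Pool.Agent.Results.MP_103a5c_nt.BohrSetPairs (zeros mult N)

/-- the normalised size of zeta at the height `t` -/
noncomputable def size (t : ℝ) : ℝ :=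
  Real.sqrt 2 * (Real.log ‖riemannZeta (1 / 2 + t * Complex.I)‖ / Real.sqrt (Real.log (Real.log t)))

/-- the window of length `2 / log y` centred at `y` -/
noncomputable def window (y : ℝ) : Set ℝ := Set.Icc (y - 1 / Real.log y) (y + 1 / Real.log y)

/-- the ordinates of size in `(a, b)`: the size is in `(a, b)` on nine tenths of the window -/
def SizeIn (a b : ℝ) : Set ℝ :=
  {y : ℝ | 9 / 10 * (2 / Real.log y) ≤ volume.real {t : ℝ | t ∈ window y ∧ a < size t ∧ size t < b}}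

/-- the standard Gaussian measure of the interval `(a, b)` -/
noncomputable def gauss (a b : ℝ) : ℝ := (ProbabilityTheory.gaussianReal 0 1).real (Set.Ioo a b)

open Classical in
/-- the sum of `g((γ - γ') log T / 2π)` over all ordered pairs of nontrivial zeros with ordinates `γ, γ'` in
`(T, 2T]`, both of size in `(a, b)`, counted with multiplicity, `γ = γ'` included -/
noncomputable def pairs (g : ℝ → ℝ) (a b T : ℝ) : ℝ :=
  ∑ᶠ s ∈ zeros T (2 * T), ∑ᶠ s' ∈ zeros T (2 * T), (mult s : ℝ) * (mult s' : ℝ) *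
    (if s.im ∈ SizeIn a b ∧ s'.im ∈ SizeIn a b then g ((s.im - s'.im) * Real.log T / (2 * Real.pi)) else 0)

/-- the transform `2 ∫_0^A f(u) cos(2π x u) du` -/
noncomputable def ft (f : ℝ → ℝ) (A x : ℝ) : ℝ := 2 * ∫ u in (0:ℝ)..A, f u * Real.cos (2 * Real.pi * x * u)

open Classical in
/-- the indicator function of `[α, β]` -/
noncomputable def ind (α β x : ℝ) : ℝ := if x ∈ Set.Icc α β then 1 else 0

/-- Montgomery's function -/
noncomputable def V (β : ℝ) : ℝ := β + 2 * ∫ x in (0:ℝ)..(min 1 (1 / β)),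
  x * (β * (1 - β * x + Real.sin (2 * Real.pi * (β * x)) / (2 * Real.pi)))

/-- the number of nontrivial zeros of `ζ` with ordinate in `(0, t]`, with multiplicity -/
noncomputable def NZ (t : ℝ) : ℕ :=
  ∑ᶠ s ∈ {s : ℂ | riemannZeta s = 0 ∧ 0 < s.re ∧ s.re < 1 ∧ 0 < s.im ∧ s.im ≤ t}, mult s

/-- for `n ≥ 1`: the `n`-th positive ordinate `γ n` of a nontrivial zero of `ζ`, the ordinates being
listed in nondecreasing order and repeated according to multiplicity -/
noncomputable def γ (n : ℕ) : ℝ := sInf {t : ℝ | n ≤ NZ t}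

/-- the normalised gaps `δ_n = (γ_{n+1} log γ_{n+1} - γ_n log γ_n) / 2π` -/
noncomputable def δ (n : ℕ) : ℝ :=
  (γ (n + 1) * Real.log (γ (n + 1)) - γ n * Real.log (γ n)) / (2 * Real.pi)

open Classical in
lemma pairs_eq (g : ℝ → ℝ) (a b : ℝ) {T : ℝ} (hT : 1 ≤ T) :
    pairs g a b T = ∑ s ∈ (H370.Zf riemannZeta T (2 * T)).filter (fun s => Run7.h911.PQ.NearO a b s.im),
      ∑ s' ∈ (H370.Zf riemannZeta T (2 * T)).filter (fun s => Run7.h911.PQ.NearO a b s.im),
        (H370.mult riemannZeta s : ℝ) * (H370.mult riemannZeta s' : ℝ) *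
          g ((s.im - s'.im) * Real.log T / (2 * Real.pi)) := by
  unfold pairs
  rw [Pool.Agent.Results.MP_103a5c_nt.BohrSetPairs.zeros_eq, H370.finsum_Zf H370.good_zeta hT, Finset.sum_filter]
  refine Finset.sum_congr rfl fun s _ => ?_
  rw [H370.finsum_Zf H370.good_zeta hT]
  have e1 : ∀ s, mult s = H370.mult riemannZeta s := fun s => rfl
  have e2 : ∀ s : ℂ, s.im ∈ SizeIn a b ↔ Run7.h911.PQ.NearO a b s.im := fun s => Iff.rfl
  by_cases h : Run7.h911.PQ.NearO a b s.im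
  · rw [if_pos h, Finset.sum_filter]
    refine Finset.sum_congr rfl fun s' _ => ?_
    by_cases h' : Run7.h911.PQ.NearO a b s'.im
    · rw [if_pos h', if_pos ⟨(e2 s).2 h, (e2 s').2 h'⟩]
      rfl
    · rw [if_neg h', if_neg (fun hh => h' ((e2 s').1 hh.2)), mul_zero]
  · rw [if_neg h]
    refine Finset.sum_eq_zero fun s' _ => ?_
    rw [if_neg (fun hh => h ((e2 s).1 hh.1)), mul_zero]

lemma pairs_ind (α β a b : ℝ) {T : ℝ} (hT : 1 ≤ T) :
    pairs (ind α β) a b T = Run7.h911.PQ.cnt a b (Set.Icc α β) T := by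
  classical
  rw [pairs_eq _ _ _ hT]
  unfold Run7.h911.PQ.cnt ind
  refine Finset.sum_congr rfl fun s _ => Finset.sum_congr rfl fun s' _ => ?_
  congr

open Classical in
lemma pairs_ft (f : ℝ → ℝ) (A a b : ℝ) {T : ℝ} (hT : 1 ≤ T) :
    pairs (ft f A) a b T = ∑ s ∈ (H370.Zf riemannZeta T (2 * T)).filter (fun s => Run7.h911.PQ.NearO a b s.im),
      ∑ s' ∈ (H370.Zf riemannZeta T (2 * T)).filter (fun s => Run7.h911.PQ.NearO a b s.im),
        Run7.h911.PQ.pf (Pool.Agent.R482.GB.CC f A) T s s' := by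
  rw [pairs_eq _ _ _ hT]
  refine Finset.sum_congr rfl fun s _ => Finset.sum_congr rfl fun s' _ => ?_
  unfold Run7.h911.PQ.pf ft Pool.Agent.R482.GB.CC
  have hpi := Real.pi_pos
  have e : 2 * Real.pi * ((s.im - s'.im) * Real.log T / (2 * Real.pi)) = Real.log T * (s.im - s'.im) := by
    field_simp
  rw [e]

/-- Assume the Riemann hypothesis. -/
theorem result (RH : RiemannHypothesis) :
    -- (1) test functions nonnegative outside `(-1, 1)`
    (∀ (A : ℝ) (f : ℝ → ℝ) (κ₀ : ℝ), 0 < A → ContDiff ℝ 2 f → f A = 0 → κ₀ < 1 →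
      (∀ x : ℝ, κ₀ ≤ x → x ≤ A → 0 ≤ f x) → ∀ a b : ℝ, a < b → ∀ ε : ℝ, 0 < ε →
      ∃ T₀ : ℝ, ∀ T : ℝ, T₀ ≤ T →
        (gauss a b * (f 0 + 2 * ∫ x in (0:ℝ)..(min 1 A), x * f x) - ε) * (N T (2 * T) : ℝ) ≤
          pairs (ft f A) a b T) ∧
    -- (2) close pairs
    (∀ β : ℝ, 0 < β → ∀ a b : ℝ, a < b → ∀ ε : ℝ, 0 < ε → ∃ T₀ : ℝ, ∀ T : ℝ, T₀ ≤ T →
      (gauss a b * V β - ε) * (N T (2 * T) : ℝ) ≤ pairs (ind (-β) β) a b T) ∧
    -- (3) windows
    (∀ α β : ℝ, 2 < β - α → ∀ a b : ℝ, a < b → ∀ ε : ℝ, 0 < ε → ∃ T₀ : ℝ, ∀ T : ℝ, T₀ ≤ T →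
      (gauss a b * ((β - α) / 3) - ε) * (N T (2 * T) : ℝ) ≤ pairs (ind α β) a b T) ∧
    (∀ α β : ℝ, α ≤ β → ∀ a b : ℝ, a < b → ∀ ε : ℝ, 0 < ε → ∃ T₀ : ℝ, ∀ T : ℝ, T₀ ≤ T →
      pairs (ind α β) a b T ≤ (gauss a b * (25 / 4 * (β - α + 1)) + ε) * (N T (2 * T) : ℝ)) ∧
    -- (4) small gaps
    (∃ κ : ℝ, 0 < κ ∧ ∀ a b : ℝ, a < b → ∃ N₀ : ℕ, ∀ N : ℕ, N₀ ≤ N →
      κ * gauss a b ^ 2 * N ≤ ({n : ℕ | 1 ≤ n ∧ n ≤ N ∧ δ n < 6073 / 10000 ∧ γ n ∈ SizeIn a b ∧
        γ (n + 1) ∈ SizeIn a b}.ncard : ℝ)) := by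
  classical
  have e0 : ∀ a b, gauss a b = Run7.h911.SZ.G01 a b := fun a b => rfl
  refine ⟨fun A f κ₀ hA hf hfA hκ₀ hpos a b hab ε hε => ?_, fun β hβ a b hab ε hε => ?_,
    fun α β hαβ a b hab ε hε => ?_, fun α β hαβ a b hab ε hε => ?_, ?_⟩
  · obtain ⟨T₀, hT₀, h⟩ := Run7.h911.PQ.lowN
      (fun η hη => Run7.h911.PQ.lowC2 RH hA hf hfA hκ₀ hpos hab hη) hε
    refine ⟨T₀, fun T hT => ?_⟩
    rw [pairs_ft f A a b (by linarith), e0, mul_comm (Run7.h911.SZ.G01 a b)]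
    exact h T hT
  · obtain ⟨T₀, hT₀, h⟩ := Run7.h911.PQ.lowN (fun η hη => Run7.h911.PQ.closeC RH hβ hab hη) hε
    refine ⟨T₀, fun T hT => ?_⟩
    rw [pairs_ind _ _ a b (by linarith), e0, mul_comm (Run7.h911.SZ.G01 a b)]
    exact h T hT
  · obtain ⟨T₀, hT₀, h⟩ := Run7.h911.PQ.lowN (fun η hη => Run7.h911.PQ.windowC RH hαβ hab hη) hε
    refine ⟨T₀, fun T hT => ?_⟩
    rw [pairs_ind _ _ a b (by linarith), e0, mul_comm (Run7.h911.SZ.G01 a b)]
    exact h T hT
  · obtain ⟨T₀, hT₀, h⟩ := Run7.h911.PQ.upN (fun η hη => Run7.h911.PQ.windowU RH hαβ hab hη) hε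
    refine ⟨T₀, fun T hT => ?_⟩
    rw [pairs_ind _ _ a b (by linarith), e0, mul_comm (Run7.h911.SZ.G01 a b)]
    exact h T hT
  · obtain ⟨β, hβ0, hβ1, hV⟩ := Pool.Agent.R482.GB.VV_cont
    obtain ⟨κ, hκ, h⟩ := Run7.h911.PQ.small_idxC RH (c := (β + 6073 / 10000) / 2) hβ0 (by linarith) hV
    refine ⟨κ, hκ, fun a b hab => ?_⟩
    obtain ⟨N₀, h⟩ := h a b hab
    refine ⟨N₀, fun N hN => (h N hN).trans ?_⟩
    have hfin : {n : ℕ | 1 ≤ n ∧ n ≤ N ∧ δ n < 6073 / 10000 ∧ γ n ∈ SizeIn a b ∧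
        γ (n + 1) ∈ SizeIn a b}.Finite := (Set.finite_Icc 1 N).subset fun n hn => ⟨hn.1, hn.2.1⟩
    refine Nat.cast_le.2 (Set.ncard_le_ncard ?_ hfin)
    rintro n ⟨h1, h2, h3, h4, h5⟩
    have h3' : δ n ≤ (β + 6073 / 10000) / 2 := h3
    exact ⟨h1, h2, by linarith, h4, h5⟩

end Pool.Agent.Results.MP_8958e8_nt.PairsAndGapsAtEverySize
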